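import Pool.Agent.W952.LP.Stm

/-! Project LP: the space is connected. -/

set_option autoImplicit false

namespace Pool.Agent.W215.LP

open Pool.Agent.W952.LP

/-- the spine -/
def spine : Set (ℝ × ℝ × ℝ) := {p | ∃ x : ℝ, 0 ≤ x ∧ x ≤ 1 ∧ p = (x, 0, 0)}

lemma spine_pre : IsPreconnected spine := by
  have h : spine = (fun x : ℝ => ((x, 0, 0) : ℝ × ℝ × ℝ)) '' Set.Icc 0 1 := by
    ext p
    simp only [spine, Set.mem_ofPred_eq, Set.mem_image, Set.mem_Icc]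
    constructor
    · rintro ⟨x, h0, h1, rfl⟩
      exact ⟨x, ⟨h0, h1⟩, rfl⟩
    · rintro ⟨x, ⟨h0, h1⟩, rfl⟩
      exact ⟨x, h0, h1, rfl⟩
  rw [h]
  apply isPreconnected_Icc.image
  fun_prop

lemma reach_mono (G : Gd) (g : ℕ) {y z : ℝ} (h : G.Reach g y) (h0 : 0 ≤ z) (h1 : z ≤ y) :
    G.Reach g z := by
  obtain ⟨a, b, c⟩ := h
  refine ⟨h0, h1.trans b, ?_⟩
  rcases c with c | ⟨b0, c1, c2⟩
  · exact Or.inl c
  · exact Or.inr ⟨b0, c1, h1.trans c2⟩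

/-- LP-CONN -/
theorem conn : S_conn := by
  intro G
  refine ⟨⟨(0, 0, 0), Or.inl ⟨0, le_refl _, zero_le_one, rfl⟩⟩, ?_⟩
  apply isPreconnected_of_forall ((0, 0, 0) : ℝ × ℝ × ℝ)
  intro p hp
  have hsp : spine ⊆ G.Sp := fun q hq => Or.inl hq
  have h0 : ((0, 0, 0) : ℝ × ℝ × ℝ) ∈ spine := ⟨0, le_refl _, zero_le_one, rfl⟩
  rcases hp with hp | ⟨g, i, y, hi, hy, rfl⟩
  · exact ⟨spine, hsp, h0, hp, spine_pre⟩
  · have hc : Continuous (fun t : ℝ => G.pt g i t) := by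
      unfold Gd.pt
      fun_prop
    have hI : IsPreconnected ((fun t : ℝ => G.pt g i t) '' Set.Icc 0 y) :=
      isPreconnected_Icc.image _ hc.continuousOn
    have hz : G.pt g i 0 = (((1 / 2 : ℝ) ^ g, 0, 0) : ℝ × ℝ × ℝ) := by
      simp [Gd.pt]
    have hmem : G.pt g i 0 ∈ spine := by
      rw [hz]
      exact ⟨(1 / 2 : ℝ) ^ g, by positivity, pow_le_one₀ (by norm_num) (by norm_num), rfl⟩
    refine ⟨spine ∪ ((fun t : ℝ => G.pt g i t) '' Set.Icc 0 y), ?_, Or.inl h0,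
      Or.inr ⟨y, ⟨hy.1, le_refl _⟩, rfl⟩,
      IsPreconnected.union (G.pt g i 0) hmem ⟨0, ⟨le_refl _, hy.1⟩, rfl⟩ spine_pre hI⟩
    rintro q (hq | ⟨t, ⟨ht0, ht1⟩, rfl⟩)
    · exact hsp hq
    · exact Or.inr ⟨g, i, t, hi, reach_mono G g hy ht0 ht1, rfl⟩

end Pool.Agent.W215.LP
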